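import Pool.Agent.Helper19.HO.Defs
import Pool.Agent.Helper75.PU.P10

/-! Project HO, piece HO-13: polar coordinates for `Psi`. -/

open MeasureTheory Set Metric Filter Module
open scoped NNReal Topology RealInnerProductSpace ENNReal Real ContDiff Manifold

namespace Pool.Agent.Helper19.HO

section Crofton

variable {E H ι : Type*} [NormedAddCommGroup E] [InnerProductSpace ℝ E] [NormedAddCommGroup H]
  [InnerProductSpace ℝ H] [Fintype ι]

theorem continuous_act_P13 (b : OrthonormalBasis ι ℝ H) :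
    Continuous (fun p : PiLp 2 (fun _ : ι => E) => act b p) := by
  unfold act
  refine continuous_finsetSum _ fun j _ => ?_
  have h1 : Continuous (fun p : PiLp 2 (fun _ : ι => E) => p j) := by fun_prop
  exact (ContinuousLinearMap.smulRightL ℝ H E (innerSL ℝ (b j))).continuous.comp h1

theorem act_apply_P13 (b : OrthonormalBasis ι ℝ H) (p : PiLp 2 (fun _ : ι => E)) (h : H) :
    act b p h = ∑ j, ⟪b j, h⟫ • p j := by
  simp [act]

theorem continuous_act_apply_P13 (b : OrthonormalBasis ι ℝ H) :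
    Continuous (fun q : PiLp 2 (fun _ : ι => E) × H => act b q.1 q.2) := by
  simp_rw [act_apply_P13]
  refine continuous_finsetSum _ fun j _ => ?_
  fun_prop

theorem continuous_Jac_P13 [FiniteDimensional ℝ E] [FiniteDimensional ℝ H] :
    Continuous (fun D : E →L[ℝ] H => Jac D) := by
  unfold Jac
  refine Real.continuous_sqrt.comp ?_
  refine ContinuousLinearMap.continuous_det.comp ?_
  have h1 : Continuous (fun D : E →L[ℝ] H => D.adjoint) :=
    (ContinuousLinearMap.adjoint (𝕜 := ℝ) (E := E) (F := H)).continuous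
  exact h1.clm_comp continuous_id

theorem measurable_Psi_P13 [FiniteDimensional ℝ E] [MeasurableSpace E] [BorelSpace E]
    (b : OrthonormalBasis ι ℝ H) (D : E →L[ℝ] H) :
    Measurable (fun y : E => Psi b D y) := by
  have h1 : Measurable (fun q : E × PiLp 2 (fun _ : ι => E) => gw q.2 * ker b q.2 D q.1) := by
    have hg : Measurable (fun q : E × PiLp 2 (fun _ : ι => E) => gw q.2) := by
      unfold gw
      fun_prop
    refine hg.mul ?_
    unfold ker
    have hs : MeasurableSet {q : E × PiLp 2 (fun _ : ι => E) | ‖act b q.2 (D q.1)‖ < 1} := by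
      have hc : Continuous (fun q : E × PiLp 2 (fun _ : ι => E) => act b q.2 (D q.1)) :=
        (continuous_act_apply_P13 b).comp (continuous_snd.prodMk (D.continuous.comp continuous_fst))
      exact (isOpen_lt hc.norm continuous_const).measurableSet
    have hd : Continuous (fun q : E × PiLp 2 (fun _ : ι => E) =>
        |(act b q.2 ∘L D).det|) := by
      refine Continuous.abs (ContinuousLinearMap.continuous_det.comp ?_)
      exact ((continuous_act_P13 b).comp continuous_snd).clm_comp continuous_const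
    exact Measurable.ite hs (hd.measurable.ennreal_ofReal) measurable_const
  exact Measurable.lintegral_prod_right' h1

theorem lintegral_scale_P13 (n : ℕ) {R : ℝ} (hR : 0 < R) (f : ℝ → ℝ≥0∞) :
    ∫⁻ r in Ioi (0 : ℝ), ENNReal.ofReal (r ^ n) * f (R * r)
      = ENNReal.ofReal (R ^ (n + 1))⁻¹ * ∫⁻ r in Ioi (0 : ℝ), ENNReal.ofReal (r ^ n) * f r := by
  have h1 : ∫⁻ r, (Ioi (0 : ℝ)).indicator (fun r => ENNReal.ofReal (r ^ n) * f r) (R * r)
      = ENNReal.ofReal |R⁻¹| *
        ∫⁻ r, (Ioi (0 : ℝ)).indicator (fun r => ENNReal.ofReal (r ^ n) * f r) r := by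
    have h2 : MeasurableEmbedding (fun r : ℝ => R * r) :=
      (Homeomorph.mulLeft₀ R hR.ne').measurableEmbedding
    rw [← h2.lintegral_map, Real.map_volume_mul_left hR.ne', lintegral_smul_measure, smul_eq_mul]
  have h3 : ∀ r, (Ioi (0 : ℝ)).indicator (fun r => ENNReal.ofReal (r ^ n) * f r) (R * r)
      = ENNReal.ofReal (R ^ n) *
        (Ioi (0 : ℝ)).indicator (fun r => ENNReal.ofReal (r ^ n) * f (R * r)) r := by
    intro r
    by_cases hr : 0 < r
    · have hr2 : 0 < R * r := mul_pos hR hr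
      rw [indicator_of_mem (show R * r ∈ Ioi (0 : ℝ) from hr2),
        indicator_of_mem (show r ∈ Ioi (0 : ℝ) from hr), mul_pow,
        ENNReal.ofReal_mul (by positivity), mul_assoc]
    · have hr2 : ¬ 0 < R * r := by
        intro h
        exact hr (pos_of_mul_pos_right (by linarith) hR.le)
      rw [indicator_of_notMem (show R * r ∉ Ioi (0 : ℝ) from hr2),
        indicator_of_notMem (show r ∉ Ioi (0 : ℝ) from hr), mul_zero]
  simp_rw [h3] at h1
  rw [lintegral_const_mul' _ _ ENNReal.ofReal_ne_top, lintegral_indicator measurableSet_Ioi,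
    lintegral_indicator measurableSet_Ioi] at h1
  have h4 : ENNReal.ofReal (R ^ n)⁻¹ * ENNReal.ofReal (R ^ n) = 1 := by
    rw [← ENNReal.ofReal_mul (by positivity), inv_mul_cancel₀ (by positivity), ENNReal.ofReal_one]
  calc ∫⁻ r in Ioi (0 : ℝ), ENNReal.ofReal (r ^ n) * f (R * r)
      = ENNReal.ofReal (R ^ n)⁻¹ * (ENNReal.ofReal (R ^ n) *
          ∫⁻ r in Ioi (0 : ℝ), ENNReal.ofReal (r ^ n) * f (R * r)) := by
        rw [← mul_assoc, h4, one_mul]
    _ = ENNReal.ofReal (R ^ n)⁻¹ * (ENNReal.ofReal |R⁻¹| *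
          ∫⁻ r in Ioi (0 : ℝ), ENNReal.ofReal (r ^ n) * f r) := by rw [h1]
    _ = _ := by
        rw [← mul_assoc, ← ENNReal.ofReal_mul (by positivity), abs_of_pos (by positivity),
          pow_succ, mul_inv]

end Crofton

section Crofton2

variable {E H ι : Type*} [NormedAddCommGroup E] [InnerProductSpace ℝ E] [NormedAddCommGroup H]
  [InnerProductSpace ℝ H] [Fintype ι] [FiniteDimensional ℝ E] [FiniteDimensional ℝ H]
  [MeasurableSpace E] [BorelSpace E]

theorem fderiv_smul_P13 {g : E → H} {R : ℝ} (hg : OddMap g R) {u : E} (hu : u ≠ 0) {t : ℝ}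
    (ht : 0 < t) : fderiv ℝ g (t • u) = fderiv ℝ g u := by
  have hd : ∀ y : E, y ≠ 0 → HasFDerivAt g (fderiv ℝ g y) y := by
    intro y hy
    have h1 : ContDiffAt ℝ 1 g y :=
      hg.smooth.contDiffAt (isOpen_compl_singleton.mem_nhds (by simpa using hy))
    exact (h1.differentiableAt (by norm_num)).hasFDerivAt
  have h2 : HasFDerivAt (fun y => g (t • y)) ((fderiv ℝ g (t • u)).comp
      (t • ContinuousLinearMap.id ℝ E)) u := by
    have h3 : HasFDerivAt (fun y : E => t • y) (t • ContinuousLinearMap.id ℝ E) u :=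
      (hasFDerivAt_id u).const_smul t
    exact (hd (t • u) (smul_ne_zero ht.ne' hu)).comp u h3
  have h4 : HasFDerivAt (fun y => g (t • y)) (t • fderiv ℝ g u) u := by
    have h5 : (fun y => g (t • y)) = fun y => t • g y := by
      funext y
      exact hg.homog y t ht
    rw [h5]
    exact (hd u hu).const_smul t
  have h6 := h2.unique h4
  ext v
  have h7 := congrArg (fun D : E →L[ℝ] H => D v) h6
  simp only [ContinuousLinearMap.comp_apply, smul_apply,
    ContinuousLinearMap.id_apply, map_smul] at h7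
  exact smul_right_injective H ht.ne' h7

theorem fderiv_self_P13 {g : E → H} {R : ℝ} (hg : OddMap g R) {u : E} (hu : u ≠ 0) :
    fderiv ℝ g u u = g u := by
  have h1 : ContDiffAt ℝ 1 g u :=
    hg.smooth.contDiffAt (isOpen_compl_singleton.mem_nhds (by simpa using hu))
  have h2 : HasFDerivAt g (fderiv ℝ g u) u := (h1.differentiableAt (by norm_num)).hasFDerivAt
  have h3 : HasDerivAt (fun t : ℝ => t • u) u 1 := by
    simpa using (hasDerivAt_id (1 : ℝ)).smul_const u
  have h2' : HasFDerivAt g (fderiv ℝ g u) ((fun t : ℝ => t • u) 1) := by simpa using h2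
  have h4 : HasDerivAt (fun t : ℝ => g (t • u)) (fderiv ℝ g u u) 1 :=
    h2'.comp_hasDerivAt 1 h3
  have h5 : HasDerivAt (fun t : ℝ => t • g u) (g u) 1 := by
    simpa using (hasDerivAt_id (1 : ℝ)).smul_const (g u)
  have h6 : (fun t : ℝ => g (t • u)) =ᶠ[𝓝 1] fun t : ℝ => t • g u := by
    filter_upwards [Ioi_mem_nhds (show (0 : ℝ) < 1 by norm_num)] with t ht
    exact hg.homog u t ht
  exact h4.unique (h5.congr_of_eventuallyEq h6)

theorem lintegral_Psi_polar_of_Psi_eq [Nontrivial E] (b : OrthonormalBasis ι ℝ H) {g : E → H}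
    {R : ℝ} (hR : 0 < R) (hg : OddMap g R) (Q₀ : E →ₗᵢ[ℝ] H) {e₀ : E} (he : ‖e₀‖ = 1)
    (hPsi : ∀ (D : E →L[ℝ] H) (y w : E), ‖w‖ = ‖D y‖ →
      Psi b D y = ENNReal.ofReal (Jac D) * Psi b Q₀.toContinuousLinearMap w) :
    ∫⁻ y, Psi b (fderiv ℝ g y) y
      = (∫⁻ u : sphere (0 : E) 1, ENNReal.ofReal (Jac (fderiv ℝ g u))
            ∂(volume : Measure E).toSphere)
        * (ENNReal.ofReal (R ^ finrank ℝ E)⁻¹
          * ∫⁻ r in Ioi (0 : ℝ), ENNReal.ofReal (r ^ (finrank ℝ E - 1))
              * Psi b Q₀.toContinuousLinearMap (r • e₀)) := by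
  have hh : Measurable (fun u : sphere (0 : E) 1 => ENNReal.ofReal (Jac (fderiv ℝ g u))) := by
    refine Measurable.ennreal_ofReal ?_
    exact (continuous_Jac_P13.measurable.comp (measurable_fderiv ℝ g)).comp measurable_subtype_coe
  have hw : Measurable (fun r : ℝ => Psi b Q₀.toContinuousLinearMap ((R * r) • e₀)) := by
    refine (measurable_Psi_P13 b Q₀.toContinuousLinearMap).comp ?_
    fun_prop
  have key : ∀ u : sphere (0 : E) 1, ∀ r : ℝ, 0 < r →
      (fun y => Psi b (fderiv ℝ g y) y) (r • (u : E)) =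
        (fun u : sphere (0 : E) 1 => ENNReal.ofReal (Jac (fderiv ℝ g u))) u *
        (fun r : ℝ => Psi b Q₀.toContinuousLinearMap ((R * r) • e₀)) r := by
    intro u r hr
    have hu1 : ‖(u : E)‖ = 1 := by simp
    have hu : (u : E) ≠ 0 := by
      intro h
      rw [h, norm_zero] at hu1
      exact zero_ne_one hu1
    simp only
    rw [fderiv_smul_P13 hg hu hr]
    refine hPsi _ _ _ ?_
    rw [map_smul, fderiv_self_P13 hg hu, norm_smul, norm_smul, hg.norm, hu1, he, mul_one, mul_one,
      norm_mul, Real.norm_of_nonneg hR.le, Real.norm_of_nonneg hr.le, mul_comm]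
  rw [Pool.Agent.Helper19.PU.lintegral_polar_mul _ _ _ hh hw key]
  have hfr : finrank ℝ E - 1 + 1 = finrank ℝ E := Nat.succ_pred_eq_of_pos finrank_pos
  congr 1
  have h8 := lintegral_scale_P13 (finrank ℝ E - 1) hR
    (fun r : ℝ => Psi b Q₀.toContinuousLinearMap (r • e₀))
  rw [hfr] at h8
  exact h8

end Crofton2

end Pool.Agent.Helper19.HO
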